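import Pool.Agent.W203.SP.Stm2

/-!
# The `L^q` norm of the Fourier transform of the dilated density
-/

set_option autoImplicit false

namespace Pool.Agent.W203.SP

open MeasureTheory Set Complex Filter Metric
open scoped ENNReal NNReal FourierTransform RealInnerProductSpace ContDiff
open Pool.Agent.H153R4 (E BS ch ST cube kk dd)

/-- splitting off the last coordinate -/
lemma w414_split_lint (k : ℕ) (H : ℝ → E k → ℝ≥0∞) (hH : Measurable (Function.uncurry H)) :
    ∫⁻ ξ : E (k + 1), H (ξ (Fin.last k)) (WithLp.toLp 2 fun j => ξ j.castSucc) =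
      ∫⁻ t, ∫⁻ y : E k, H t y := by
  have hG : Measurable fun x : Fin (k + 1) → ℝ =>
      H (x (Fin.last k)) (WithLp.toLp 2 fun j => x j.castSucc) := by
    have : Measurable fun x : Fin (k + 1) → ℝ =>
        ((x (Fin.last k), (WithLp.toLp 2 fun j : Fin k => x j.castSucc : E k)) : ℝ × E k) := by
      refine Measurable.prodMk (by fun_prop) ?_
      exact (PiLp.volume_preserving_toLp (Fin k)).measurable.comp (by fun_prop)
    exact hH.comp this
  have hG2 : Measurable fun p : ℝ × (Fin k → ℝ) => H p.1 (WithLp.toLp 2 p.2 : E k) := by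
    have : Measurable fun p : ℝ × (Fin k → ℝ) =>
        ((p.1, (WithLp.toLp 2 p.2 : E k)) : ℝ × E k) := by
      refine Measurable.prodMk (by fun_prop) ?_
      exact (PiLp.volume_preserving_toLp (Fin k)).measurable.comp (by fun_prop)
    exact hH.comp this
  have h1 : ∫⁻ ξ : E (k + 1), H (ξ (Fin.last k)) (WithLp.toLp 2 fun j => ξ j.castSucc) =
      ∫⁻ x : Fin (k + 1) → ℝ, H (x (Fin.last k)) (WithLp.toLp 2 fun j => x j.castSucc) :=
    (PiLp.volume_preserving_ofLp (Fin (k + 1))).lintegral_comp hG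
  have h2 : ∫⁻ x : Fin (k + 1) → ℝ, H (x (Fin.last k)) (WithLp.toLp 2 fun j => x j.castSucc) =
      ∫⁻ p : ℝ × (Fin k → ℝ), H p.1 (WithLp.toLp 2 p.2) := by
    rw [← (volume_preserving_piFinSuccAbove (fun _ : Fin (k + 1) => ℝ)
      (Fin.last k)).lintegral_comp hG2]
    apply lintegral_congr
    intro x
    simp only [MeasurableEquiv.piFinSuccAbove_apply]
    congr 2
    funext j
    simp [Fin.insertNthEquiv, Fin.init]
  rw [h1, h2, Measure.volume_eq_prod, lintegral_prod _ hG2.aemeasurable]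
  apply lintegral_congr
  intro t
  exact (PiLp.volume_preserving_toLp (Fin k)).lintegral_comp
    (f := fun y : E k => H t y) (hH.comp (f := fun y => (t, y)) (by fun_prop))

/-- componentwise dilation -/
lemma w414_scale_lint (k : ℕ) (l : Fin k → ℝ) (hl : ∀ j, 0 < l j) (G : E k → ℝ≥0∞)
    (hG : Measurable G) :
    ∫⁻ y : E k, G (WithLp.toLp 2 fun j => l j * y j) =
      ENNReal.ofReal ((∏ j, l j)⁻¹) * ∫⁻ y, G y := by
  have hprod : 0 < ∏ j, l j := Finset.prod_pos fun j _ => hl j
  have hdet : (Matrix.diagonal l).det = ∏ j, l j := Matrix.det_diagonal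
  have hG1 : Measurable fun x : Fin k → ℝ => G (WithLp.toLp 2 x) :=
    hG.comp (PiLp.volume_preserving_toLp (Fin k)).measurable
  have hD : Measurable fun x : Fin k → ℝ => fun j => l j * x j := by fun_prop
  have hmap : Measure.map (fun x : Fin k → ℝ => fun j => l j * x j) volume =
      ENNReal.ofReal ((∏ j, l j)⁻¹) • (volume : Measure (Fin k → ℝ)) := by
    have h := Real.map_matrix_volume_pi_eq_smul_volume_pi (M := Matrix.diagonal l)
      (by rw [hdet]; exact hprod.ne')
    rw [hdet, abs_of_pos (inv_pos.mpr hprod)] at h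
    rw [← h]
    congr 1
    funext x
    funext j
    simp [Matrix.toLin'_apply, Matrix.mulVec_diagonal]
  have h1 : ∫⁻ y : E k, G (WithLp.toLp 2 fun j => l j * y j) =
      ∫⁻ x : Fin k → ℝ, G (WithLp.toLp 2 fun j => l j * x j) :=
    (PiLp.volume_preserving_ofLp (Fin k)).lintegral_comp
      (f := fun x : Fin k → ℝ => G (WithLp.toLp 2 fun j => l j * x j)) (hG1.comp hD)
  have h2 : ∫⁻ x : Fin k → ℝ, G (WithLp.toLp 2 fun j => l j * x j) =
      ∫⁻ x, G (WithLp.toLp 2 x) ∂(Measure.map (fun x : Fin k → ℝ => fun j => l j * x j) volume) :=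
    (lintegral_map hG1 hD).symm
  rw [h1, h2, hmap, lintegral_smul_measure, smul_eq_mul]
  congr 1
  exact (PiLp.volume_preserving_toLp (Fin k)).lintegral_comp hG

/-- the theorem -/
theorem t_FDL (h : S_FD) (hm : S_MG) : S_FDL := by
  intro k l hl f hf q hq
  have hprod : 0 < ∏ j, l j := Finset.prod_pos fun j _ => (hl j).1
  have hfb : Measurable (fb f) := hf.indicator measurableSet_ball
  have hM : Measurable fun p : ℝ × E k => 𝓕 (gs 1 p.1 (fun j => l j ^ 2) (fb f)) p.2 :=
    (hm k 1 (fun _ => 0) (fb f) measurable_const hfb).2.comp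
      (f := fun p : ℝ × E k => ((p.1, fun j => l j ^ 2), p.2)) (by fun_prop)
  set H : ℝ → E k → ℝ≥0∞ := fun t y => (ENNReal.ofReal (∏ j, l j) *
    ‖𝓕 (gs 1 (-t) (fun j => l j ^ 2) (fb f)) (WithLp.toLp 2 fun j => l j * y j)‖ₑ) ^ q with hHd
  have hsc : Measurable fun y : E k => (WithLp.toLp 2 fun j => l j * y j : E k) :=
    (PiLp.volume_preserving_toLp (Fin k)).measurable.comp (by fun_prop)
  have hHm : Measurable (Function.uncurry H) := by
    have h2 : Measurable fun p : ℝ × E k =>
        ‖𝓕 (gs 1 (-p.1) (fun j => l j ^ 2) (fb f)) (WithLp.toLp 2 fun j => l j * p.2 j)‖ₑ :=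
      (hM.comp (f := fun p : ℝ × E k => (-p.1, (WithLp.toLp 2 fun j => l j * p.2 j : E k)))
        (Measurable.prodMk measurable_fst.neg (hsc.comp measurable_snd))).enorm
    exact (h2.const_mul _).pow_const q
  have e1 : ∀ ξ : E (k + 1), ‖FD l f ξ‖ₑ ^ q =
      H (ξ (Fin.last k)) (WithLp.toLp 2 fun j => ξ j.castSucc) := by
    intro ξ
    rw [h k l hl f hf ξ, enorm_mul, hHd]
    simp only
    congr 2
    rw [← ofReal_norm, Complex.norm_real, Real.norm_eq_abs, abs_of_pos hprod]
  simp only [e1]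
  rw [w414_split_lint k H hHm]
  unfold NQ
  rw [Measure.restrict_univ, ENNReal.ofReal_rpow_of_pos hprod |>.symm, ← lintegral_const_mul']
  · rw [← lintegral_neg_eq_self (f := fun t : ℝ => ∫⁻ y : E k, H t y)]
    apply lintegral_congr
    intro t
    have h3 : Measurable fun y : E k => ‖𝓕 (gs 1 t (fun j => l j ^ 2) (fb f)) y‖ₑ ^ q :=
      (hM.comp (f := fun y => (t, y)) (by fun_prop)).enorm.pow_const q
    have h4 := w414_scale_lint k l (fun j => (hl j).1) _ h3
    simp only [hHd, neg_neg]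
    simp only [ENNReal.mul_rpow_of_nonneg _ _ hq]
    rw [lintegral_const_mul', h4, ← mul_assoc]
    exact ENNReal.rpow_ne_top_of_nonneg hq ENNReal.ofReal_ne_top
  · exact ENNReal.mul_ne_top (ENNReal.rpow_ne_top_of_nonneg hq ENNReal.ofReal_ne_top)
      ENNReal.ofReal_ne_top

end Pool.Agent.W203.SP
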